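import Pool.Agent.Results.MP_7bfa24_nt.SuperpolynomialHeights
import Pool.Agent.R479.DA.Lim
import Pool.Agent.R909.RandSets

/-!
# The exceptions to the generalized abc inequality, and random sets

The lemma `count` and its proof are those of `MP_7bfa24_nt.StarshapedHeights` (helper482).
-/

set_option autoImplicit false

namespace Pool.Agent.R599.GA

open Filter Topology MeasureTheory
open Pool.Agent.Results.MP_7bfa24_nt
open SuperpolynomialHeights (Admissible radical Tuples)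

/-- `max |x_i|` -/
def ht {n : ℕ} (x : Fin n → ℤ) : ℕ := Finset.univ.sup fun i => (x i).natAbs

/-- the admissible tuples with `R (x_1 ⋯ x_n) ≤ (max |x_i|) ^ κ` -/
def Exc (n : ℕ) (κ : ℝ) : Set (Fin n → ℤ) := {x | Admissible x ∧ (radical (∏ j, x j) : ℝ) ≤ (ht x : ℝ) ^ κ}

lemma le_ht {n : ℕ} (x : Fin n → ℤ) (i : Fin n) : (x i).natAbs ≤ ht x :=
  Finset.le_sup (f := fun i => (x i).natAbs) (Finset.mem_univ i)

lemma finite_ht (n : ℕ) (X : ℝ) : {x : Fin n → ℤ | (ht x : ℝ) ≤ X}.Finite := by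
  refine (Finset.finite_toSet (Fintype.piFinset fun _ : Fin n => Finset.Icc (-⌊X⌋) ⌊X⌋)).subset ?_
  intro x hx
  rw [Finset.mem_coe, Fintype.mem_piFinset]
  intro i
  have h1 : ((x i).natAbs : ℝ) ≤ X := le_trans (by exact_mod_cast le_ht x i) hx
  rw [Nat.cast_natAbs, Int.cast_abs, abs_le] at h1
  rw [Finset.mem_Icc]
  constructor
  · rw [neg_le]
    apply Int.le_floor.2
    push_cast
    linarith
  · exact Int.le_floor.2 h1.2

lemma choose_pos (n : ℕ) : (1 : ℝ) ≤ (n.choose (n / 2) : ℝ) := by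
  exact_mod_cast Nat.choose_pos (Nat.div_le_self n 2)

lemma gap (n : ℕ) : 0 ≤ 1 - 1 / (n.choose (n / 2) : ℝ) := by
  have h := choose_pos n
  rw [sub_nonneg, div_le_one (by linarith)]
  exact h

lemma count (n : ℕ) (hn : 3 ≤ n) (κ : ℝ) (hκ : 0 < κ) (ε : ℝ) (hε : 0 < ε) : ∃ K : ℝ, ∀ X : ℝ, 1 ≤ X →
    {x | x ∈ Exc n κ ∧ (ht x : ℝ) ≤ X}.Finite ∧
      ({x | x ∈ Exc n κ ∧ (ht x : ℝ) ≤ X}.ncard : ℝ) ≤ K * X ^ (κ * (1 - 1 / (n.choose (n / 2) : ℝ)) + ε) := by
  set g : ℝ := 1 - 1 / (n.choose (n / 2) : ℝ) with hg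
  have hg0 : 0 ≤ g := gap n
  obtain ⟨c, hc, Y₀, hY⟩ := SuperpolynomialHeights.result n hn (ε / κ) (by positivity)
  -- for large `Y` the exponent `c log log Y` is at least `2 / κ`
  have hlim : Tendsto (fun Y : ℕ => c * Real.log (Real.log (Y : ℝ))) atTop atTop :=
    (Real.tendsto_log_atTop.comp (Real.tendsto_log_atTop.comp tendsto_natCast_atTop_atTop)).const_mul_atTop hc
  obtain ⟨Y₁, hY₁⟩ := eventually_atTop.1 (hlim.eventually_ge_atTop (2 / κ))
  set Y₂ : ℕ := max (max Y₀ Y₁) 2 with hY₂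
  set X₁ : ℝ := ((Y₂ : ℝ) + 1) ^ (1 / κ) with hX₁
  refine ⟨({x : Fin n → ℤ | (ht x : ℝ) ≤ X₁}.ncard : ℝ) + 1, fun X hX => ?_⟩
  have hX0 : 0 < X := by linarith
  have hfin : {x | x ∈ Exc n κ ∧ (ht x : ℝ) ≤ X}.Finite := (finite_ht n X).subset fun x hx => hx.2
  refine ⟨hfin, ?_⟩
  have hexp : 0 ≤ κ * g + ε := by positivity
  have hp1 : 1 ≤ X ^ (κ * g + ε) := Real.one_le_rpow hX hexp
  have hK0 : (0 : ℝ) ≤ ({x : Fin n → ℤ | (ht x : ℝ) ≤ X₁}.ncard : ℝ) := Nat.cast_nonneg _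
  rcases le_or_gt X X₁ with hXX | hXX
  · have h1 : {x | x ∈ Exc n κ ∧ (ht x : ℝ) ≤ X} ⊆ {x : Fin n → ℤ | (ht x : ℝ) ≤ X₁} := fun x hx => hx.2.trans hXX
    have h2 : ({x | x ∈ Exc n κ ∧ (ht x : ℝ) ≤ X}.ncard : ℝ) ≤ ({x : Fin n → ℤ | (ht x : ℝ) ≤ X₁}.ncard : ℝ) := by
      exact_mod_cast Set.ncard_le_ncard h1 (finite_ht n X₁)
    nlinarith
  · have hXκ : (Y₂ : ℝ) + 1 < X ^ κ := by
      calc (Y₂ : ℝ) + 1 = X₁ ^ κ := by
            rw [hX₁, ← Real.rpow_mul (by positivity), one_div_mul_cancel hκ.ne', Real.rpow_one]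
        _ < X ^ κ := Real.rpow_lt_rpow (by positivity) hXX hκ
    set Y : ℕ := ⌊X ^ κ⌋₊ with hYd
    have hYX : (Y : ℝ) ≤ X ^ κ := Nat.floor_le (by positivity)
    have hYX' : X ^ κ < (Y : ℝ) + 1 := Nat.lt_floor_add_one _
    have hYge : Y₂ ≤ Y := Nat.le_floor (by linarith)
    have hY2 : 2 ≤ Y := le_trans (le_max_right _ _) hYge
    have hY2' : (2 : ℝ) ≤ Y := by exact_mod_cast hY2
    obtain ⟨hf, hcard⟩ := hY Y ((le_max_left _ _).trans ((le_max_left _ _).trans hYge))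
    have hcl := hY₁ Y ((le_max_right _ _).trans ((le_max_left _ _).trans hYge))
    have hXY : X ≤ (Y : ℝ) ^ (c * Real.log (Real.log (Y : ℝ))) := by
      have h1 : X ^ κ ≤ (Y : ℝ) ^ 2 := by nlinarith
      calc X = (X ^ κ) ^ (1 / κ) := by
            rw [← Real.rpow_mul hX0.le, mul_one_div_cancel hκ.ne', Real.rpow_one]
        _ ≤ ((Y : ℝ) ^ 2) ^ (1 / κ) := Real.rpow_le_rpow (by positivity) h1 (by positivity)
        _ = (Y : ℝ) ^ (2 / κ) := by
            rw [← Real.rpow_natCast (Y : ℝ) 2, ← Real.rpow_mul (by positivity)]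
            congr 1
            push_cast
            ring
        _ ≤ _ := Real.rpow_le_rpow_of_exponent_le (by linarith) hcl
    have hsub : {x | x ∈ Exc n κ ∧ (ht x : ℝ) ≤ X} ⊆ Tuples n c Y := by
      rintro x ⟨⟨h1, h2⟩, h3⟩
      refine ⟨h1, Nat.le_floor (h2.trans (Real.rpow_le_rpow (Nat.cast_nonneg _) h3 hκ.le)), fun i => ?_⟩
      have h4 : (((x i).natAbs : ℕ) : ℝ) ≤ ht x := by exact_mod_cast le_ht x i
      rw [Nat.cast_natAbs] at h4
      exact h4.trans (h3.trans hXY)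
    have h5 := Set.ncard_le_ncard hsub hf
    calc ({x | x ∈ Exc n κ ∧ (ht x : ℝ) ≤ X}.ncard : ℝ) ≤ ((Tuples n c Y).ncard : ℝ) := by exact_mod_cast h5
      _ ≤ (Y : ℝ) ^ (g + ε / κ) := hcard
      _ ≤ (X ^ κ) ^ (g + ε / κ) := Real.rpow_le_rpow (by positivity) hYX (by positivity)
      _ = X ^ (κ * g + ε) := by
          rw [← Real.rpow_mul hX0.le]
          congr 1
          field_simp
      _ ≤ _ := by nlinarith

/-- the largest of the numbers `|x_i|` which are different from `max |x_i|` -/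
def sec {n : ℕ} (x : Fin n → ℤ) : ℕ :=
  Finset.univ.sup fun i => if (x i).natAbs = ht x then 0 else (x i).natAbs

lemma exists_ht {n : ℕ} (hn : 0 < n) (x : Fin n → ℤ) : ∃ i, (x i).natAbs = ht x := by
  have : (Finset.univ : Finset (Fin n)).Nonempty := ⟨⟨0, hn⟩, Finset.mem_univ _⟩
  obtain ⟨i, -, hi⟩ := Finset.exists_mem_eq_sup _ this (fun i => (x i).natAbs)
  exact ⟨i, hi.symm⟩

lemma ht_pos {n : ℕ} (hn : 3 ≤ n) {x : Fin n → ℤ} (hx : Admissible x) : 0 < ht x := by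
  have h0 : x ⟨0, by omega⟩ ≠ 0 := by
    have h := hx.2.2 {⟨0, by omega⟩} (Finset.singleton_nonempty _) (by
      intro h
      have h1 := congrArg Finset.card h
      rw [Finset.card_singleton, Finset.card_univ, Fintype.card_fin] at h1
      omega)
    rwa [Finset.sum_singleton] at h
  have h1 := le_ht x ⟨0, by omega⟩
  have h2 := Int.natAbs_pos.2 h0
  omega

lemma sec_lt {n : ℕ} (hn : 3 ≤ n) {x : Fin n → ℤ} (hx : Admissible x) : sec x < ht x := by
  have h0 := ht_pos hn hx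
  unfold sec
  rw [Finset.sup_lt_iff (by exact h0)]
  intro i _
  split_ifs with h
  · exact h0
  · exact lt_of_le_of_ne (le_ht x i) h

/-- the second largest value is large -/
lemma ht_le {n : ℕ} (hn : 3 ≤ n) {x : Fin n → ℤ} (hx : Admissible x) : ht x ≤ n * sec x := by
  classical
  obtain ⟨i0, hi0⟩ := exists_ht (by omega) x
  obtain ⟨T, hT⟩ : ∃ T : Finset (Fin n), T = Finset.univ.filter fun i => x i = x i0 := ⟨_, rfl⟩
  have hTn : 1 ≤ T.card := Finset.card_pos.2 ⟨i0, by rw [hT, Finset.mem_filter]; exact ⟨Finset.mem_univ _, rfl⟩⟩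
  have h1 : ∀ j, j ∉ T → (x j).natAbs ≤ sec x := by
    intro j hj
    have hj' : x j ≠ x i0 := fun h => hj (by rw [hT, Finset.mem_filter]; exact ⟨Finset.mem_univ _, h⟩)
    have hne : (x j).natAbs ≠ ht x := by
      intro h
      rw [← hi0] at h
      rcases Int.natAbs_eq_natAbs_iff.1 h with h2 | h2
      · exact hj' h2
      · have hij : j ≠ i0 := fun h => hj' (by rw [h])
        have h3 := hx.2.2 {j, i0} ⟨j, Finset.mem_insert_self _ _⟩ (by
          intro h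
          have h4 := congrArg Finset.card h
          rw [Finset.card_pair hij, Finset.card_univ, Fintype.card_fin] at h4
          omega)
        rw [Finset.sum_pair hij, h2] at h3
        exact h3 (by ring)
    have h2 := Finset.le_sup (f := fun i => if (x i).natAbs = ht x then 0 else (x i).natAbs)
      (Finset.mem_univ j)
    simp only [if_neg hne] at h2
    exact h2
  have h2 : ∑ i ∈ T, x i + ∑ i ∈ Tᶜ, x i = 0 := by
    rw [Finset.sum_add_sum_compl]
    exact hx.1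
  have h3 : ∑ i ∈ T, x i = T.card * x i0 := by
    rw [Finset.sum_congr rfl (g := fun _ => x i0) (fun i hi => by
      rw [hT, Finset.mem_filter] at hi
      exact hi.2), Finset.sum_const, nsmul_eq_mul]
  have h4 : (∑ i ∈ Tᶜ, x i).natAbs ≤ Tᶜ.card * sec x := by
    refine (Int.natAbs_sum_le _ _).trans ?_
    refine (Finset.sum_le_card_nsmul _ _ (sec x) fun i hi => h1 i (Finset.mem_compl.1 hi)).trans ?_
    rw [smul_eq_mul]
  have h5 : (∑ i ∈ Tᶜ, x i).natAbs = T.card * ht x := by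
    have h6 : ∑ i ∈ Tᶜ, x i = -(T.card * x i0) := by rw [← h3]; linarith
    rw [h6, Int.natAbs_neg, Int.natAbs_mul, Int.natAbs_natCast, hi0]
  have h7 : Tᶜ.card ≤ n := by
    have := Finset.card_le_univ Tᶜ
    rwa [Fintype.card_fin] at this
  calc ht x = 1 * ht x := (one_mul _).symm
    _ ≤ T.card * ht x := Nat.mul_le_mul_right _ hTn
    _ = (∑ i ∈ Tᶜ, x i).natAbs := h5.symm
    _ ≤ Tᶜ.card * sec x := h4
    _ ≤ n * sec x := Nat.mul_le_mul_right _ h7

/-- the sum of `(max |x_i|) ^ (-p)` over the exceptional tuples converges -/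
lemma summable_exc {n : ℕ} (hn : 3 ≤ n) {κ : ℝ} (hκ : 0 < κ) {p : ℝ}
    (hp : κ * (1 - 1 / (n.choose (n / 2) : ℝ)) < p) :
    Summable fun x : {x : Fin n → ℤ // x ∈ Exc n κ} => (ht x.1 : ℝ) ^ (-p) := by
  obtain ⟨s, hs1, hs2⟩ := exists_between hp
  obtain ⟨K, hK⟩ := count n hn κ hκ (s - κ * (1 - 1 / (n.choose (n / 2) : ℝ))) (by linarith)
  have h0 : 0 ≤ κ * (1 - 1 / (n.choose (n / 2) : ℝ)) := mul_nonneg hκ.le (gap n)
  refine Pool.Agent.R479.DA.summable_heights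
    (fun x : {x : Fin n → ℤ // x ∈ Exc n κ} => (ht x.1 : ℝ)) (fun x => ?_) (s := s) (p := p)
    (C := K) hs2 (by linarith) ?_
  · exact_mod_cast ht_pos hn x.2.1
  · intro X hX
    obtain ⟨h1, h2⟩ := hK X hX
    have hmaps : Set.MapsTo (Subtype.val : {x : Fin n → ℤ // x ∈ Exc n κ} → (Fin n → ℤ))
        {x | (ht x.1 : ℝ) ≤ X} {x | x ∈ Exc n κ ∧ (ht x : ℝ) ≤ X} := fun x hx => ⟨x.2, hx⟩
    have hinj : Set.InjOn (Subtype.val : {x : Fin n → ℤ // x ∈ Exc n κ} → (Fin n → ℤ))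
        {x | (ht x.1 : ℝ) ≤ X} := Subtype.val_injective.injOn
    refine ⟨h1.of_injOn hmaps hinj, ?_⟩
    have h3 := Set.ncard_le_ncard_of_injOn _ hmaps hinj h1
    have e : κ * (1 - 1 / (n.choose (n / 2) : ℝ)) +
        (s - κ * (1 - 1 / (n.choose (n / 2) : ℝ))) = s := by ring
    rw [e] at h2
    exact le_trans (by exact_mod_cast h3) h2

/-- the exceptions as a set -/
lemma mem_exc {n : ℕ} {E : ℝ} (hE : 0 < E) {x : Fin n → ℤ} (hx : Admissible x)
    (h : ¬ (ht x : ℝ) < (radical (∏ j, x j) : ℝ) ^ E) : x ∈ Exc n (1 / E) := by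
  refine ⟨hx, ?_⟩
  have h0 : (0 : ℝ) ≤ (radical (∏ j, x j) : ℝ) := Nat.cast_nonneg _
  calc (radical (∏ j, x j) : ℝ) = ((radical (∏ j, x j) : ℝ) ^ E) ^ (1 / E) := by
        rw [← Real.rpow_mul h0, mul_one_div_cancel hE.ne', Real.rpow_one]
    _ ≤ (ht x : ℝ) ^ (1 / E) :=
        Real.rpow_le_rpow (by positivity) (not_lt.1 h) (by positivity)

/-- the convergence for the exponent `E` -/
lemma summable_bad {n : ℕ} (hn : 3 ≤ n) {E : ℝ} (hE : 0 < E) {p : ℝ}
    (hp : (1 - 1 / (n.choose (n / 2) : ℝ)) / E < p) :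
    Summable fun x : {x : Fin n → ℤ //
      Admissible x ∧ ¬ (ht x : ℝ) < (radical (∏ j, x j) : ℝ) ^ E} => (ht x.1 : ℝ) ^ (-p) := by
  have h1 := summable_exc hn (κ := 1 / E) (by positivity) (p := p) (by
    rw [one_div_mul_eq_div]
    exact hp)
  exact h1.comp_injective (i := fun x : {x : Fin n → ℤ //
    Admissible x ∧ ¬ (ht x : ℝ) < (radical (∏ j, x j) : ℝ) ^ E} =>
      (⟨x.1, mem_exc hE x.2.1 x.2.2⟩ : {x : Fin n → ℤ // x ∈ Exc n (1 / E)}))
    (fun x y h => Subtype.ext (congrArg (fun z : {x : Fin n → ℤ // x ∈ Exc n (1 / E)} => z.1) h))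

end Pool.Agent.R599.GA
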